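import Pool.Agent.P.MP_cc4673_an.LA.Iface

/-! Circle integrals with a holomorphic parameter. -/

namespace Pool.Agent.P.MP_cc4673_an.LA

open Polynomial Filter Topology Set Metric Matrix

theorem p_PARX : S_PARX := by
  intro X _ _ _ G W D c R hW hD hR hs hG x₀ hx₀
  borelize X
  have := FiniteDimensional.proper ℂ X
  obtain ⟨ε, hε, hb⟩ := nhds_basis_closedBall.mem_iff.1 (hD.mem_nhds hx₀)
  have hK : closedBall x₀ ε ×ˢ sphere c R ⊆ W := (prod_mono_left hb).trans hs
  obtain ⟨M, hM⟩ := ((isCompact_closedBall x₀ ε).prod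
    (isCompact_sphere c R)).exists_bound_of_continuousOn (hG.continuousOn.mono hK)
  have hm : ∀ {x} θ, x ∈ closedBall x₀ ε → (x, circleMap c R θ) ∈ closedBall x₀ ε ×ˢ sphere c R :=
    fun θ hx => ⟨hx, circleMap_mem_sphere c hR.le θ⟩
  have hd : ∀ {x} θ, x ∈ closedBall x₀ ε → HasFDerivAt (fun y => G (y, circleMap c R θ))
      ((fderiv ℂ G (x, circleMap c R θ)).comp (.inl ℂ X ℂ)) x := fun {x} θ hx =>
    HasFDerivAt.comp (f := fun y => (y, circleMap c R θ)) x
      (hG.differentiableAt (hW.mem_nhds (hK (hm θ hx)))).hasFDerivAt (hasFDerivAt_prodMk_left ..)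
  have hc : ∀ x ∈ closedBall x₀ ε,
      Continuous fun θ => deriv (circleMap c R) θ • G (x, circleMap c R θ) := fun x hx => by
    simp only [deriv_circleMap]
    exact Continuous.smul (f := fun θ => circleMap 0 R θ * Complex.I) (by fun_prop)
      (hG.continuousOn.comp_continuous (by fun_prop) fun θ => hK (hm θ hx))
  refine (intervalIntegral.hasFDerivAt_integral_of_dominated_of_fderiv_le
    (F' := fun x θ => deriv (circleMap c R) θ • (fderiv ℂ G (x, circleMap c R θ)).comp (.inl ℂ X ℂ))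
    (bound := fun _ => R * (2 * M / (ε / 2))) (ball_mem_nhds x₀ (half_pos hε))
    (eventually_of_mem (closedBall_mem_nhds x₀ hε) fun x hx => (hc x hx).aestronglyMeasurable)
    ((hc x₀ (mem_closedBall_self hε.le)).intervalIntegrable ..) ?_ (.of_forall fun θ _ x hx => ?_)
    intervalIntegrable_const (.of_forall fun θ _ x hx => (hd θ (ball_subset_closedBall
      (ball_subset_ball (half_le_self hε.le) hx))).const_smul
        (deriv (circleMap c R) θ))).differentiableAt.differentiableWithinAt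
  · borelize (X × ℂ →L[ℂ] ℂ)
    refine .smul (measurable_deriv (circleMap c R)).aestronglyMeasurable
      (Continuous.comp_aestronglyMeasurable
      (g := fun A : X × ℂ →L[ℂ] ℂ => A.comp (.inl ℂ X ℂ)) (by fun_prop) ?_)
    exact ((measurable_fderiv ℂ G).comp (by fun_prop)).aestronglyMeasurable
  · have hx' : ball x (ε / 2) ⊆ closedBall x₀ ε := fun y hy => mem_closedBall.2 (by
      linarith [dist_triangle y x x₀, mem_ball.1 hy, mem_ball.1 hx])
    have hx0 := hx' (mem_ball_self (half_pos hε))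
    rw [norm_smul, ← (hd θ hx0).fderiv, deriv_circleMap, norm_mul, norm_circleMap_zero,
      Complex.norm_I, mul_one, abs_of_pos hR]
    gcongr
    refine Complex.norm_fderiv_le_div_of_mapsTo_ball (fun y hy =>
      (hd θ (hx' hy)).differentiableAt.differentiableWithinAt) (fun y hy => ?_) (half_pos hε)
    rw [mem_closedBall, dist_eq_norm]
    linarith [norm_sub_le (G (y, circleMap c R θ)) (G (x, circleMap c R θ)), hM _ (hm θ hx0),
      hM _ (hm θ (hx' hy))]

end Pool.Agent.P.MP_cc4673_an.LA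

/-! Coefficients of a holomorphic family of polynomials of bounded degree are holomorphic. -/

namespace Pool.Agent.P.MP_cc4673_an.LA

open Polynomial Filter Topology Set Metric Matrix

theorem p_COEF : S_COEF := by
  intro m P hm hP i
  have e : (fun τ => (P τ).coeff i) = fun τ => ∑ k ∈ Finset.range (m + 1),
      (P τ).eval (k : ℂ) * (Lagrange.basis (Finset.range (m + 1)) (fun k : ℕ => (k : ℂ)) k).coeff i := by
    funext τ
    have h := Lagrange.eq_interpolate (f := P τ) (s := Finset.range (m + 1))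
      (v := fun k : ℕ => (k : ℂ)) Nat.cast_injective.injOn (by
        rw [Finset.card_range]
        exact degree_le_natDegree.trans_lt (by exact_mod_cast Nat.lt_succ_of_le (hm τ)))
    conv_lhs => rw [h]
    simp only [Lagrange.interpolate_apply, finsetSum_coeff, coeff_C_mul]
  rw [e]
  exact Differentiable.fun_sum fun k _ => (hP k).mul_const _

end Pool.Agent.P.MP_cc4673_an.LA

/-! Step SYM. -/

namespace Pool.Agent.P.MP_cc4673_an.LA

open Polynomial Filter Topology Set Metric Matrix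

theorem sym_bound {p : ℂ[X]} {m : ℕ} (h1 : p.natDegree ≤ m) (h2 : p.coeff m ≠ 0) {s : ℂ}
    (hs : p.eval s = 0) : ‖s‖ < (∑ i ∈ Finset.range m, ‖p.coeff i‖) / ‖p.coeff m‖ + 1 := by
  obtain rfl := natDegree_eq_of_le_of_coeff_ne_zero h1 h2
  have h3 := IsRoot.norm_lt_cauchyBound (p := p) (by rintro rfl; simp at h2) hs
  have h4 : p.cauchyBound ≤
      (∑ i ∈ Finset.range p.natDegree, ‖p.coeff i‖₊) / ‖p.coeff p.natDegree‖₊ + 1 := by
    unfold cauchyBound leadingCoeff
    gcongr
    exact Finset.sup_le fun i hi =>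
      Finset.single_le_sum (f := fun i => ‖p.coeff i‖₊) (fun _ _ => zero_le) hi
  have h5 := NNReal.coe_lt_coe.2 (h3.trans_le h4)
  simpa using h5

theorem sym_int {f : ℂ → ℂ} (hf : Differentiable ℂ f) {R : ℝ} (hR : 0 ≤ R) (Z : Multiset ℂ)
    (hZ : ∀ s ∈ Z, ‖s‖ < R) :
    CircleIntegrable (fun t => f t * (Z.map fun z => 1 / (t - z)).sum) 0 R ∧
      ∮ t in C(0, R), f t * (Z.map fun z => 1 / (t - z)).sum =
        2 * Real.pi * Complex.I * (Z.map f).sum := by
  induction Z using Multiset.induction_on with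
  | empty => simp [circleIntegral]
  | cons a Z ih =>
    obtain ⟨h1, h2⟩ := ih fun s hs => hZ s (Multiset.mem_cons_of_mem hs)
    have ha := hZ a (Multiset.mem_cons_self a Z)
    have h3 : CircleIntegrable (fun t => (t - a)⁻¹ • f t) 0 R :=
      ContinuousOn.circleIntegrable hR (((continuousOn_id.sub continuousOn_const).inv₀
        fun t ht e => by
          rw [mem_sphere_zero_iff_norm, (sub_eq_zero.1 e : t = a)] at ht
          exact ha.ne ht).smul hf.continuous.continuousOn)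
    have e : (fun t => f t * ((a ::ₘ Z).map fun z => 1 / (t - z)).sum) =
        fun t => (t - a)⁻¹ • f t + f t * (Z.map fun z => 1 / (t - z)).sum := by
      funext t
      rw [Multiset.map_cons, Multiset.sum_cons, smul_eq_mul]
      ring
    rw [e, circleIntegral.integral_add h3 h1, h2,
      hf.differentiableOn.circleIntegral_sub_inv_smul (mem_ball_zero_iff.2 ha),
      Multiset.map_cons, Multiset.sum_cons, smul_eq_mul, mul_add]
    exact ⟨h3.add h1, rfl⟩

theorem sym_eval {m : ℕ} {P : ℂ → ℂ[X]} (h1 : ∀ τ, (P τ).natDegree ≤ m)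
    (h2 : ∀ i, Differentiable ℂ fun τ => (P τ).coeff i) :
    Differentiable ℂ fun x : ℂ × ℂ => (P x.1).eval x.2 := by
  simp only [fun x : ℂ × ℂ => eval_eq_sum_range' (Nat.lt_succ_of_le (h1 x.1)) x.2]
  exact Differentiable.fun_sum fun i _ => ((h2 i).comp differentiable_fst).mul (by fun_prop)

theorem p_SYM (hP : S_PARX) : S_SYM := by
  intro m P h h1 h2 hh τ₀ h0
  have hU : IsOpen {τ | (P τ).coeff m ≠ 0} := isOpen_ne_fun (h2 m).continuous continuous_const
  set B : ℂ → ℝ := fun τ => (∑ i ∈ Finset.range m, ‖(P τ).coeff i‖) / ‖(P τ).coeff m‖ + 1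
  have hB : ContinuousOn B {τ | (P τ).coeff m ≠ 0} :=
    ((continuous_finsetSum _ fun i _ => (h2 i).continuous.norm).continuousOn.div
      (h2 m).continuous.norm.continuousOn fun τ hτ => norm_ne_zero_iff.2 hτ).add continuousOn_const
  have hD := hB.isOpen_inter_preimage hU (isOpen_Iio (a := B τ₀ + 1))
  have hR : 0 < B τ₀ + 1 := by positivity
  have hr : ∀ τ ∈ {τ | (P τ).coeff m ≠ 0} ∩ B ⁻¹' Iio (B τ₀ + 1), ∀ s, (P τ).eval s = 0 →
      ‖s‖ < B τ₀ + 1 := fun τ hτ s hs => (sym_bound (h1 τ) hτ.1 hs).trans hτ.2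
  have e1 := sym_eval h1 h2
  have e2 := sym_eval (P := fun τ => derivative (P τ)) (m := m)
    (fun τ => natDegree_derivative_le _ |>.trans ((Nat.sub_le _ _).trans (h1 τ))) fun i => by
      simp only [coeff_derivative]
      exact (h2 _).mul_const _
  have k := hP ℂ (fun x => h x * ((derivative (P x.1)).eval x.2 * ((P x.1).eval x.2)⁻¹))
    {x | (P x.1).eval x.2 ≠ 0} _ 0 _ (isOpen_ne_fun e1.continuous continuous_const) hD hR
    (fun x hx e => (hr _ hx.1 _ e).ne (mem_sphere_zero_iff_norm.1 hx.2))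
    (hh.differentiableOn.mul (e2.differentiableOn.mul (e1.differentiableOn.inv fun x hx => hx)))
  have hm := hD.mem_nhds (show τ₀ ∈ _ from ⟨h0, lt_add_one (B τ₀)⟩)
  refine (((k.differentiableAt hm).div_const (2 * Real.pi * Complex.I)).congr_of_eventuallyEq
    (eventually_of_mem hm fun τ hτ => ?_)).differentiableWithinAt
  have k2 := (sym_int (f := fun s => h (τ, s)) (by fun_prop) hR.le (P τ).roots
    fun s hs => hr τ hτ s (isRoot_of_mem_roots hs)).2
  rw [eq_div_iff Complex.two_pi_I_ne_zero, mul_comm, ← k2]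
  refine circleIntegral.integral_congr hR.le fun t ht => ?_
  simp only
  rw [← div_eq_mul_inv, (IsAlgClosed.splits _).eval_derivative_div_eval_of_ne_zero
    fun e => (hr τ hτ t e).ne (mem_sphere_zero_iff_norm.1 ht)]

end Pool.Agent.P.MP_cc4673_an.LA

namespace Pool.Agent.P.MP_cc4673_an.LA

open Polynomial Filter Topology Set Metric Matrix

theorem grow_entire (j : ℕ) : ∀ (G : ℂ → ℂ) (M : ℝ), Differentiable ℂ G →
    (∀ s, 1 ≤ ‖s‖ → ‖G s‖ ≤ M * ‖s‖ ^ j) → ∃ q : ℂ[X], q.natDegree ≤ j ∧ ∀ s, G s = q.eval s := by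
  induction j with
  | zero =>
    intro G M hG h
    obtain ⟨B, hB⟩ := (isCompact_closedBall (0 : ℂ) 1).exists_bound_of_continuousOn
      hG.continuous.continuousOn
    refine ⟨C (G 0), by simp, fun s => ?_⟩
    rw [eval_C]
    refine hG.apply_eq_apply_of_bounded (isBounded_iff_forall_norm_le.2 ⟨max M B, ?_⟩) s 0
    rintro _ ⟨x, rfl⟩
    rcases le_total 1 ‖x‖ with hx | hx
    · exact le_max_of_le_left (by simpa using h x hx)
    · exact le_max_of_le_right (hB x (by simpa using hx))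
  | succ j ih =>
    intro G M hG h
    have hd : Differentiable ℂ (dslope G 0) := differentiableOn_univ.1
      ((Complex.differentiableOn_dslope univ_mem).2 hG.differentiableOn)
    have e : ∀ s, G s = G 0 + s * dslope G 0 s := fun s => by
      have := sub_smul_dslope G 0 s
      rw [sub_zero, smul_eq_mul] at this
      rw [this]; ring
    obtain ⟨q, h1, h2⟩ := ih _ (M + ‖G 0‖) hd fun s hs => by
      have a : ‖s‖ * ‖dslope G 0 s‖ ≤ M * ‖s‖ ^ (j + 1) + ‖G 0‖ := by
        rw [← norm_mul, show s * dslope G 0 s = G s - G 0 by rw [e s]; ring]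
        exact (norm_sub_le _ _).trans (by linarith [h s hs])
      have b : (1 : ℝ) ≤ ‖s‖ ^ (j + 1) := one_le_pow₀ hs
      refine le_of_mul_le_mul_left (a.trans ?_) (by linarith : 0 < ‖s‖)
      rw [mul_left_comm, ← pow_succ']
      nlinarith [norm_nonneg (G 0)]
    refine ⟨C (G 0) + X * q, ?_, fun s => by rw [e s, h2 s]; simp⟩
    refine (natDegree_add_le _ _).trans (max_le (by simp) (natDegree_mul_le.trans ?_))
    have := natDegree_X_le (R := ℂ)
    omega

theorem p_GROW : S_GROW := by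
  intro g T M j hT hg hb
  obtain ⟨G, hG, e⟩ := extend_lf (g := g) isOpen_univ (fun x _ => hT x)
    (by rwa [← compl_eq_univ_sdiff]) fun t _ => ⟨|M| * (2 + ‖t‖) ^ j, by
      filter_upwards [ball_mem_nhds t one_pos] with z hz hz'
      have : ‖z‖ ≤ ‖t‖ + 1 := norm_le_of_mem_closedBall (ball_subset_closedBall hz)
      exact (hb z hz').trans (mul_le_mul (le_abs_self M)
        (pow_le_pow_left₀ (by positivity) (by linarith) j) (by positivity) (abs_nonneg M))⟩
  have hG' := differentiableOn_univ.1 hG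
  have all : ∀ s, ‖G s‖ ≤ M * (1 + ‖s‖) ^ j := fun s =>
    hT.dense_compl.induction (P := fun s => ‖G s‖ ≤ M * (1 + ‖s‖) ^ j)
      (fun a ha => e a ha ▸ hb a ha)
      (isClosed_le hG'.continuous.norm (by fun_prop)) s
  obtain ⟨q, h1, h2⟩ := grow_entire j G (|M| * 2 ^ j) hG' fun s hs => by
    rw [mul_assoc, ← mul_pow]
    exact (all s).trans (mul_le_mul (le_abs_self M)
      (pow_le_pow_left₀ (by positivity) (by linarith) j) (by positivity) (abs_nonneg M))
  exact ⟨q, h1, fun s hs => (e s hs).symm.trans (h2 s)⟩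

end Pool.Agent.P.MP_cc4673_an.LA

/-! The extension theorem of Riemann. -/

namespace Pool.Agent.P.MP_cc4673_an.LA

open Polynomial Filter Topology Set Metric Matrix

section

variable {E : Type} [NormedAddCommGroup E] [NormedSpace ℂ E] {a g : E → ℂ} {T : Set ℂ}

theorem riem_line (ha : Differentiable ℂ a) (hT : LF T) {z u : E}
    (h : a z ∉ T ∨ a (z + u) ≠ a z) : LF {w : ℂ | a (z + w • u) ∈ T} := by
  by_cases hc : ∃ c, ∀ s : ℂ, a (z + s • u) = c
  · obtain ⟨c, hc⟩ := hc
    have h0 := hc 0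
    have h1 := hc 1
    rw [zero_smul, add_zero] at h0
    rw [one_smul, ← h0] at h1
    exact fun x => Eventually.of_forall fun w hw =>
      h.resolve_right (not_not.2 h1) (by rwa [mem_ofPred_eq, hc, ← h0] at hw)
  · exact hT.preimage (a := fun w : ℂ => a (z + w • u)) (by fun_prop) hc

omit [NormedSpace ℂ E] in
theorem riem_dir (hc : ¬ ∃ c, ∀ z, a z = c) (z : E) : ∃ u, a (z + u) ≠ a z := by
  by_contra h
  push Not at h
  exact hc ⟨a z, fun y => by rw [← h (y - z), add_sub_cancel]⟩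

theorem riem_loc [FiniteDimensional ℂ E] (hP : S_PARX) (ha : Differentiable ℂ a)
    (hc : ¬ ∃ c, ∀ z, a z = c) (hT : LF T) (hg : DifferentiableOn ℂ g (a ⁻¹' Tᶜ)) (z₀ : E) {M : ℝ}
    (hM : ∀ᶠ z in 𝓝 z₀, a z ∉ T → ‖g z‖ ≤ M) : ∃ (D : Set E) (G : E → ℂ), IsOpen D ∧ z₀ ∈ D ∧
      DifferentiableOn ℂ G D ∧ ∀ z ∈ D, a z ∉ T → G z = g z := by
  obtain ⟨u, hu⟩ := riem_dir hc z₀
  obtain ⟨N, n1, n2, n3⟩ := _root_.eventually_nhds_iff.1 hM
  have c1 : Continuous fun p : E × ℂ => p.1 + p.2 • u := by fun_prop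
  have c2 : ∀ z : E, Continuous fun w : ℂ => z + w • u := fun z => by fun_prop
  have e1 : ∀ᶠ w : ℂ in 𝓝 0, z₀ + w • u ∈ N :=
    (c2 z₀).continuousAt.eventually_mem (by simpa using n2.mem_nhds n3)
  obtain ⟨ρ, r0, hρ⟩ := nhds_basis_closedBall.eventually_iff.1
    ((eventually_nhdsWithin_iff.1 (riem_line ha hT (.inr hu) 0)).and e1)
  set W : Set (E × ℂ) := {p | p.2 ≠ 0} ∩ (fun p => p.1 + p.2 • u) ⁻¹' (a ⁻¹' Tᶜ) with hW
  have oW : IsOpen W := (isOpen_ne_fun continuous_snd continuous_const).inter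
    ((hT.isOpen_compl.preimage ha.continuous).preimage c1)
  have t1 := (isCompact_sphere (0 : ℂ) ρ).eventually_forall_of_forall_eventually (x₀ := z₀)
    (P := fun z w => (z, w) ∈ W) fun w hw => oW.mem_nhds (by
      have w0 : w ≠ 0 := ne_of_mem_sphere hw r0.ne'
      exact ⟨w0, (hρ (sphere_subset_closedBall hw)).1 w0⟩)
  have t2 := (isCompact_closedBall (0 : ℂ) ρ).eventually_forall_of_forall_eventually (x₀ := z₀)
    (P := fun z w => z + w • u ∈ N) fun w hw => (n2.preimage c1).mem_nhds (hρ hw).2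
  obtain ⟨D, d1, d2, d3⟩ := _root_.eventually_nhds_iff.1 (t1.and t2)
  refine ⟨D, fun z => (2 * Real.pi * Complex.I)⁻¹ * ∮ w in C(0, ρ), (w - 0)⁻¹ • g (z + w • u),
    d2, d3, ?_, fun z hz hz' => ?_⟩
  · refine (hP E (fun p => (p.2 - 0)⁻¹ • g (p.1 + p.2 • u)) W D 0 ρ oW d2 r0
      (fun p hp => (d1 p.1 hp.1).1 p.2 hp.2) ?_).const_mul _
    have k1 : DifferentiableOn ℂ (fun p : E × ℂ => (p.2 - 0)⁻¹) W :=
      (differentiableOn_snd.sub_const (0 : ℂ)).inv fun p hp => sub_ne_zero.2 hp.1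
    have k2 : DifferentiableOn ℂ (fun p : E × ℂ => g (p.1 + p.2 • u)) W :=
      hg.comp (f := fun p : E × ℂ => p.1 + p.2 • u) (by fun_prop) fun p hp => hp.2
    exact k1.smul k2
  · obtain ⟨G, g1, g2⟩ := extend_lf (g := fun w : ℂ => g (z + w • u))
      (T := {w : ℂ | a (z + w • u) ∈ T}) (n2.preimage (c2 z))
      (fun x _ => riem_line ha hT (.inl hz') x) (hg.comp (by fun_prop) fun p hp => hp.2)
      fun t ht => ⟨M, Filter.mem_of_superset ((n2.preimage (c2 z)).mem_nhds ht)
        fun w hw => n1 _ hw⟩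
    have k := (g1.mono (d1 z hz).2).circleIntegral_sub_inv_smul (mem_ball_self r0)
    rw [g2 0 (by simpa using hz'), zero_smul, add_zero, circleIntegral.integral_congr r0.le
      (g := fun w => (w - 0)⁻¹ • g (z + w • u)) fun w hw => by
        simp only [g2 w ((d1 z hz).1 w hw).2]] at k
    beta_reduce
    rw [k, smul_eq_mul, inv_mul_cancel_left₀ Complex.two_pi_I_ne_zero]

end

theorem p_RIEM (hP : S_PARX) : S_RIEM := by
  intro E _ _ _ a g T ha hc hT hg hM
  have hd : Dense (a ⁻¹' Tᶜ) := fun z => by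
    obtain ⟨u, hu⟩ := riem_dir hc z
    exact mem_closure_of_tendsto (b := 𝓝[≠] (0 : ℂ)) (f := fun w : ℂ => z + w • u)
      (((by fun_prop : Continuous fun w : ℂ => z + w • u).tendsto' 0 z (by simp)).mono_left
        nhdsWithin_le_nhds) (riem_line ha hT (.inr hu) 0)
  have key : ∀ z₀, ∃ (D : Set E) (G : E → ℂ), IsOpen D ∧ z₀ ∈ D ∧ DifferentiableOn ℂ G D ∧
      (∀ z ∈ D, a z ∉ T → G z = g z) ∧ ∀ z ∈ D, limUnder (𝓝[a ⁻¹' Tᶜ] z) g = G z := fun z₀ => by
    obtain ⟨M, h⟩ := hM z₀
    obtain ⟨D, G, d1, d2, d3, d4⟩ := riem_loc hP ha hc hT hg z₀ h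
    refine ⟨D, G, d1, d2, d3, d4, fun z hz => ?_⟩
    have := mem_closure_iff_nhdsWithin_neBot.1 (hd z)
    refine Tendsto.limUnder_eq (((d3.differentiableAt (d1.mem_nhds hz)).continuousAt.tendsto.mono_left
      nhdsWithin_le_nhds).congr' ?_)
    filter_upwards [mem_nhdsWithin_of_mem_nhds (d1.mem_nhds hz), self_mem_nhdsWithin] with y b c
      using d4 y b c
  refine ⟨hd, fun z => limUnder (𝓝[a ⁻¹' Tᶜ] z) g, fun z => ?_, fun z hz => ?_⟩
  · obtain ⟨D, G, d1, d2, d3, -, d5⟩ := key z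
    exact (d3.differentiableAt (d1.mem_nhds d2)).congr_of_eventuallyEq
      (Filter.mem_of_superset (d1.mem_nhds d2) d5)
  · obtain ⟨D, G, -, d2, -, d4, d5⟩ := key z
    exact (d5 z d2).trans (d4 z d2 hz)

end Pool.Agent.P.MP_cc4673_an.LA

/-! Step KEY. -/

namespace Pool.Agent.P.MP_cc4673_an.LA

open Polynomial Filter Topology Set Metric Matrix

theorem key_poly (W : Finset ℂ) (v : ℂ) :
    ∃ g : ℂ[X], g.eval v = 1 ∧ ∀ w ∈ W, w ≠ v → g.eval w = 0 := by
  classical
  refine ⟨∏ w ∈ W.erase v, (C (v - w)⁻¹ * (X - C w)), ?_, fun w hw h => ?_⟩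
  · rw [eval_prod]
    exact Finset.prod_eq_one fun w hw => by
      simpa using inv_mul_cancel₀ (sub_ne_zero.2 (Finset.ne_of_mem_erase hw).symm)
  · rw [eval_prod]
    exact Finset.prod_eq_zero (Finset.mem_erase.2 ⟨h, hw⟩) (by simp)

open scoped ComplexOrder in
theorem key_sum (Z : Multiset ℂ) (h : ∀ x ∈ Z, x = 0 ∨ x = 1) (h1 : 1 ∈ Z) : Z.sum ≠ 0 :=
  (zero_lt_one.trans_le (Multiset.single_le_sum (fun x hx => by
    rcases h x hx with rfl | rfl
    exacts [le_rfl, zero_le_one]) 1 h1)).ne'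

theorem key_const (hS : S_SYM) (hG : S_GROW) (m : ℕ) (P : ℂ → ℂ[X]) (h : ℂ × ℂ → ℂ)
    (hP : ∀ τ, (P τ).natDegree ≤ m) (hc : ∀ i, Differentiable ℂ fun τ => (P τ).coeff i)
    (hh : Differentiable ℂ h) (h0 : (P 0).coeff m ≠ 0) (M : ℝ)
    (hM : ∀ τ s, (P τ).eval s = 0 → ‖h (τ, s)‖ ≤ M) {τ : ℂ} (hτ : (P τ).coeff m ≠ 0) :
    ((P τ).roots.map fun s => h (τ, s)).sum = ((P 0).roots.map fun s => h (0, s)).sum := by
  obtain ⟨q, hq, hq'⟩ := hG (fun τ => ((P τ).roots.map fun s => h (τ, s)).sum)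
    {τ | (P τ).coeff m = 0} (m * |M|) 0 (LF.zeros (hc m) h0) (hS m P h hP hc hh) fun τ _ => by
      rw [pow_zero, mul_one]
      refine (norm_multiset_sum_le _).trans ((Multiset.sum_le_card_nsmul _ |M| fun x hx => ?_).trans
        ?_)
      · simp only [Multiset.map_map, Multiset.mem_map, Function.comp] at hx
        obtain ⟨s, hs, rfl⟩ := hx
        exact (hM τ s (isRoot_of_mem_roots hs)).trans (le_abs_self M)
      · rw [Multiset.card_map, Multiset.card_map, nsmul_eq_mul]
        exact mul_le_mul_of_nonneg_right (Nat.cast_le.2 ((card_roots' _).trans (hP τ)))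
          (abs_nonneg M)
  rw [hq' τ hτ, hq' 0 h0, eq_C_of_natDegree_le_zero hq, eval_C, eval_C]

theorem p_KEY (hC : S_COEF) (hS : S_SYM) (hG : S_GROW) : S_KEY := by
  classical
  intro E _ _ α f Ψ P m z₀ hα hf hΨ h0 hP hm hm0 hz₀ hb z
  obtain ⟨L, hL⟩ : ∃ L : ℂ → E, L = fun τ => z₀ + τ • (z - z₀) := ⟨_, rfl⟩
  have L0 : L 0 = z₀ := by simp [hL]
  have L1 : L 1 = z := by simp [hL]
  have Ld : Differentiable ℂ L := by rw [hL]; fun_prop
  have hc := hC m (fun τ => P (L τ)) (fun τ => hm _) fun s => by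
    simp only [← hP]
    fun_prop
  have c0 : (P (L 0)).coeff m ≠ 0 := by
    rw [L0, ← hz₀]
    exact leadingCoeff_ne_zero.2 fun e => by simp [e] at hz₀; omega
  have hp : 0 < (P z₀).natDegree := hz₀ ▸ hm0
  have step : ∀ τ, (P (L τ)).coeff m ≠ 0 →
      (α (L τ), f (L τ)) ∈ range fun s => ((P z₀).eval s, f (Ψ (z₀, s))) := fun τ hτ => by
    by_contra hn
    obtain ⟨t, ht⟩ : ∃ t, t = α (L τ) := ⟨_, rfl⟩
    obtain ⟨g, g1, g0⟩ := key_poly
      (((P (L τ) - C t).roots.map fun s => f (Ψ (L τ, s))).toFinset ∪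
        ((P z₀ - C t).roots.map fun s => f (Ψ (z₀, s))).toFinset) (f (L τ))
    obtain ⟨M, hM⟩ := hb t
    obtain ⟨M', hM'⟩ := (isCompact_closedBall (0 : ℂ) M).exists_bound_of_continuousOn
      g.continuous.continuousOn
    have e : ∀ σ, (P (L σ) - C t).coeff m = (P (L σ)).coeff m := fun σ => by
      rw [coeff_sub, coeff_C, if_neg hm0.ne', sub_zero]
    have h1 := key_const hS hG m (fun σ => P (L σ) - C t) (fun x => g.eval (f (Ψ (L x.1, x.2))))
      (fun σ => natDegree_sub_C.trans_le (hm _))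
      (fun i => by simp only [coeff_sub]; exact (hc i).sub_const _)
      (g.differentiable.comp (hf.comp (hΨ.comp (by fun_prop)))) (by rwa [e]) M'
      (fun σ s hs => hM' _ (mem_closedBall_zero_iff.2 (hM _ (by
        rw [hP]; simpa [sub_eq_zero] using hs)))) (τ := τ) (by rwa [e])
    simp only [L0] at h1
    refine key_sum _ (fun x hx => ?_) ?_ (h1.trans (Multiset.sum_eq_zero fun x hx => ?_))
    · obtain ⟨s, hs, rfl⟩ := Multiset.mem_map.1 hx
      by_cases h : f (Ψ (L τ, s)) = f (L τ)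
      · exact Or.inr (h ▸ g1)
      · exact Or.inl (g0 _ (Finset.mem_union_left _ (Multiset.mem_toFinset.2
          (Multiset.mem_map_of_mem _ hs))) h)
    · refine Multiset.mem_map.2 ⟨0, (mem_roots_sub_C
        (hm0.trans_le (le_natDegree_of_ne_zero hτ))).2 ?_, by rw [h0, g1]⟩
      rw [← hP, h0, ht]
    · obtain ⟨s, hs, rfl⟩ := Multiset.mem_map.1 hx
      exact g0 _ (Finset.mem_union_right _ (Multiset.mem_toFinset.2
        (Multiset.mem_map_of_mem _ hs))) fun h =>
        hn ⟨s, Prod.ext (((mem_roots_sub_C hp).1 hs).trans ht) h⟩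
  have hcl : IsClosed (range fun s => ((P z₀).eval s, f (Ψ (z₀, s)))) := by
    refine IsProperMap.isClosed_range (isProperMap_of_comp_of_t2 (g := Prod.fst) ?_ continuous_fst
      ((P z₀).isProperMap_eval (natDegree_pos_iff_degree_pos.1 hp)))
    have := hf.continuous
    have := hΨ.continuous
    fun_prop
  have := (LF.zeros (hc m) c0).dense_compl.induction (P := fun τ => (α (L τ), f (L τ)) ∈
    range fun s => ((P z₀).eval s, f (Ψ (z₀, s)))) step
    (hcl.preimage ((hα.comp Ld).continuous.prodMk (hf.comp Ld).continuous)) 1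
  rw [L1] at this
  obtain ⟨s, hs⟩ := this
  exact ⟨s, Prod.ext_iff.1 hs⟩

end Pool.Agent.P.MP_cc4673_an.LA

/-! An entire function constant on the generic fibres of a polynomial factors through it. -/

namespace Pool.Agent.P.MP_cc4673_an.LA

open Polynomial Filter Topology Set Metric Matrix

theorem avg_entire (hS : S_SYM) {p : ℂ[X]} {F : ℂ → ℂ} (hp : 0 < p.natDegree)
    (hF : Differentiable ℂ F) : Differentiable ℂ fun t => ((p - C t).roots.map F).sum := by
  have h1 : ∀ i, Differentiable ℂ fun τ : ℂ => (p - C τ).coeff i := fun i => by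
    simp only [coeff_sub, coeff_C]
    split_ifs <;> fun_prop
  have h2 := hS p.natDegree (fun τ => p - C τ) (fun z => F z.2) (fun τ => by
    rw [natDegree_sub_C]) h1 (hF.comp differentiable_snd)
  have h3 : {τ : ℂ | (p - C τ).coeff p.natDegree ≠ 0} = univ := eq_univ_of_forall fun τ => by
    have := leadingCoeff_ne_zero.2 (sub_C_ne hp τ)
    rwa [leadingCoeff, natDegree_sub_C] at this
  rw [h3] at h2
  exact differentiableOn_univ.1 h2

theorem p_AVG (hS : S_SYM) : S_AVG := by
  intro p F T hp hF hT h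
  have hn : (p.natDegree : ℂ) ≠ 0 := by exact_mod_cast hp.ne'
  have hψ : Differentiable ℂ fun t => ((p - C t).roots.map F).sum / (p.natDegree : ℂ) :=
    (avg_entire hS hp hF).div_const _
  refine ⟨_, hψ, fun s => ?_⟩
  have hd := (hT.preimage p.differentiable (eval_nonconst hp)).dense_compl
  refine congrFun (Continuous.ext_on hd hF.continuous
    (hψ.continuous.comp p.continuous) fun s hs => ?_) s
  have : (p - C (p.eval s)).roots.map F = (p - C (p.eval s)).roots.map fun _ => F s :=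
    Multiset.map_congr rfl fun ξ hξ => h s ξ hs ((mem_roots_sub_C hp).1 hξ)
  show F s = ((p - C (p.eval s)).roots.map F).sum / (p.natDegree : ℂ)
  rw [this, Multiset.map_const', Multiset.sum_replicate, card_roots_sub_C', nsmul_eq_mul,
    mul_div_cancel_left₀ _ hn]

end Pool.Agent.P.MP_cc4673_an.LA
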