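import Mathlib

/-! Interface for the classification of L-atoms that are polynomial along a family of curves. -/

namespace Pool.Agent.P.MP_cc4673_an.LA

open Polynomial Filter Topology Set Metric Matrix

/-- `T` has no accumulation point in `ℂ`. -/
def LF (T : Set ℂ) : Prop := ∀ x : ℂ, ∀ᶠ z in 𝓝[≠] x, z ∉ T

/-- Hankel matrix of the power sums of `F` over the multiset `Z`. -/
noncomputable def hk (r : ℕ) (Z : Multiset ℂ) (F : ℂ → ℂ) : Matrix (Fin r) (Fin r) ℂ :=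
  Matrix.of fun a b => (Z.map fun ξ => F ξ ^ ((a : ℕ) + (b : ℕ))).sum

/-- The points with the same image as `s` under `(p, F)`, with multiplicity. -/
noncomputable def cls (p : ℂ[X]) (F : ℂ → ℂ) (s : ℂ) : Multiset ℂ :=
  (p - C (p.eval s)).roots.filter fun ξ => F ξ = F s

theorem LF.isOpen_compl {T : Set ℂ} (h : LF T) : IsOpen Tᶜ :=
  isOpen_iff_mem_nhds.2 fun x hx => by
    have := insert_mem_nhds_iff.2 (h x)
    rwa [insert_eq_of_mem (show x ∈ {z | z ∉ T} from hx)] at this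

theorem LF.dense_compl {T : Set ℂ} (h : LF T) : Dense Tᶜ := fun x =>
  mem_closure_iff_frequently.2 ((h x).frequently.filter_mono nhdsWithin_le_nhds)

theorem LF.union {T T' : Set ℂ} (h : LF T) (h' : LF T') : LF (T ∪ T') := fun x => by
  filter_upwards [h x, h' x] with z a b hz using hz.elim a b

theorem LF.of_finite {T : Set ℂ} (h : T.Finite) : LF T := fun x => by
  have : (T \ {x})ᶜ ∈ 𝓝 x := (h.subset sdiff_subset).isClosed.isOpen_compl.mem_nhds (by simp)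
  filter_upwards [mem_nhdsWithin_of_mem_nhds this, self_mem_nhdsWithin] with z a b hz
    using a ⟨hz, b⟩

theorem LF.infinite_compl {T : Set ℂ} (h : LF T) : Tᶜ.Infinite := fun hf => by
  obtain ⟨z, a, b⟩ := ((h 0).and (LF.of_finite hf 0)).exists
  exact b a

/-- The zero set of an entire function that is not identically zero. -/
theorem LF.zeros {a : ℂ → ℂ} (ha : Differentiable ℂ a) {x₀ : ℂ} (h : a x₀ ≠ 0) :
    LF {z | a z = 0} := fun x => by
  have an : AnalyticOnNhd ℂ a univ := ha.differentiableOn.analyticOnNhd isOpen_univ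
  refine (an x trivial).eventually_eq_zero_or_eventually_ne_zero.resolve_left fun h0 => h ?_
  exact an.eqOn_zero_of_preconnected_of_eventuallyEq_zero isPreconnected_univ (mem_univ x) h0
    (mem_univ x₀)

/-- Preimage under a nonconstant entire function. -/
theorem LF.preimage {T : Set ℂ} (h : LF T) {a : ℂ → ℂ} (ha : Differentiable ℂ a)
    (hc : ¬ ∃ c, ∀ s, a s = c) : LF (a ⁻¹' T) := fun x => by
  obtain ⟨x₀, h0⟩ : ∃ x₀, a x₀ - a x ≠ 0 := by
    by_contra hh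
    push Not at hh
    exact hc ⟨a x, fun s => sub_eq_zero.1 (hh s)⟩
  have h1 := LF.zeros (ha.sub_const (a x)) h0 x
  have h2 : Tendsto a (𝓝[≠] x) (𝓝[≠] (a x)) :=
    tendsto_nhdsWithin_iff.2 ⟨(ha.continuous.tendsto x).mono_left nhdsWithin_le_nhds,
      h1.mono fun z hz e => hz (sub_eq_zero.2 e)⟩
  exact h2.eventually (h (a x))

theorem eval_nonconst {p : ℂ[X]} (hp : 0 < p.natDegree) : ¬ ∃ c, ∀ s, p.eval s = c := by
  rintro ⟨c, hc⟩
  have : p = C c := Polynomial.funext fun s => by simp [hc s]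
  simp [this] at hp

theorem sub_C_ne {p : ℂ[X]} (hp : 0 < p.natDegree) (t : ℂ) : p - C t ≠ 0 := fun h => by
  rw [sub_eq_zero.1 h] at hp; simp at hp

theorem mem_roots_sub_C {p : ℂ[X]} (hp : 0 < p.natDegree) {t ξ : ℂ} :
    ξ ∈ (p - C t).roots ↔ p.eval ξ = t := by
  simp [sub_C_ne hp t, sub_eq_zero]

theorem card_roots_sub_C' (p : ℂ[X]) (t : ℂ) : (p - C t).roots.card = p.natDegree := by
  rw [← natDegree_sub_C (a := t)]
  exact (IsAlgClosed.splits _).natDegree_eq_card_roots.symm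

theorem mem_cls {p : ℂ[X]} (hp : 0 < p.natDegree) {F : ℂ → ℂ} {s ξ : ℂ} :
    ξ ∈ cls p F s ↔ p.eval ξ = p.eval s ∧ F ξ = F s := by
  rw [cls, Multiset.mem_filter, mem_roots_sub_C hp]

/-- Removable singularities on a locally finite set. -/
theorem extend_lf {g : ℂ → ℂ} {U T : Set ℂ} (hU : IsOpen U)
    (hT : ∀ x ∈ U, ∀ᶠ z in 𝓝[≠] x, z ∉ T) (hg : DifferentiableOn ℂ g (U \ T))
    (ho : ∀ t ∈ U, ∃ M : ℝ, ∀ᶠ z in 𝓝 t, z ∉ T → ‖g z‖ ≤ M) :
    ∃ G : ℂ → ℂ, DifferentiableOn ℂ G U ∧ ∀ z ∉ T, G z = g z := by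
  classical
  refine ⟨fun z => if z ∈ T then limUnder (𝓝[≠] z) g else g z, ?_, fun z hz => if_neg hz⟩
  intro x hx
  apply DifferentiableAt.differentiableWithinAt
  have h1 : U \ T ∈ 𝓝[≠] x :=
    inter_mem (mem_nhdsWithin_of_mem_nhds (hU.mem_nhds hx)) (hT x hx)
  have h6 : insert x (U \ T) ∈ 𝓝 x := insert_mem_nhds_iff.2 h1
  by_cases hxT : x ∈ T
  · obtain ⟨M, hM⟩ := ho x hx
    have h2 : (fun z => g z - g x) =o[𝓝[≠] x] fun z => (z - x)⁻¹ := by
      refine IsBoundedUnder.isLittleO_sub_self_inv ⟨M + ‖g x‖, ?_⟩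
      rw [eventually_map]
      filter_upwards [mem_nhdsWithin_of_mem_nhds hM, hT x hx] with z hz hz'
      exact (norm_sub_le _ _).trans (by linarith [hz hz'])
    have h5 := Complex.differentiableOn_update_limUnder_insert_of_isLittleO h1 hg h2
    refine (h5.differentiableAt h6).congr_of_eventuallyEq ?_
    filter_upwards [h6] with z hz
    rcases hz with rfl | hz
    · simp [hxT]
    · have : z ≠ x := by rintro rfl; exact hz.2 hxT
      simp [hz.2, this]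
  · rw [insert_eq_of_mem (show x ∈ U \ T from ⟨hx, hxT⟩)] at h6
    refine (hg.differentiableAt h6).congr_of_eventuallyEq ?_
    filter_upwards [h6] with z hz
    simp [hz.2]

/-- Circle integrals depend holomorphically on a finite-dimensional parameter. -/
def S_PARX : Prop := ∀ (X : Type) [NormedAddCommGroup X] [NormedSpace ℂ X] [FiniteDimensional ℂ X]
  (G : X × ℂ → ℂ) (W : Set (X × ℂ)) (D : Set X) (c : ℂ) (R : ℝ), IsOpen W → IsOpen D → 0 < R →
  D ×ˢ sphere c R ⊆ W → DifferentiableOn ℂ G W →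
  DifferentiableOn ℂ (fun x => ∮ t in C(c, R), G (x, t)) D

/-- Coefficients of a holomorphic family of polynomials of bounded degree. -/
def S_COEF : Prop := ∀ (m : ℕ) (P : ℂ → ℂ[X]), (∀ τ, (P τ).natDegree ≤ m) →
  (∀ s, Differentiable ℂ fun τ => (P τ).eval s) → ∀ i, Differentiable ℂ fun τ => (P τ).coeff i

/-- Symmetric sums over the roots are holomorphic where the top coefficient does not vanish. -/
def S_SYM : Prop := ∀ (m : ℕ) (P : ℂ → ℂ[X]) (h : ℂ × ℂ → ℂ), (∀ τ, (P τ).natDegree ≤ m) →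
  (∀ i, Differentiable ℂ fun τ => (P τ).coeff i) → Differentiable ℂ h →
  DifferentiableOn ℂ (fun τ => ((P τ).roots.map fun s => h (τ, s)).sum) {τ | (P τ).coeff m ≠ 0}

/-- Polynomial growth off a locally finite set. -/
def S_GROW : Prop := ∀ (g : ℂ → ℂ) (T : Set ℂ) (M : ℝ) (j : ℕ), LF T → DifferentiableOn ℂ g Tᶜ →
  (∀ s ∉ T, ‖g s‖ ≤ M * (1 + ‖s‖) ^ j) → ∃ q : ℂ[X], q.natDegree ≤ j ∧ ∀ s ∉ T, g s = q.eval s

/-- Prony's formula. -/
def S_HANK : Prop := ∀ (r : ℕ) (Z : Multiset ℂ) (F : ℂ → ℂ), (Z.map F).toFinset.card ≤ r →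
  ((hk r Z F).det ≠ 0 ↔ (Z.map F).toFinset.card = r) ∧
  ((Z.map F).toFinset.card = r → ∀ s ∈ Z,
    (∀ g : ℂ → ℂ, ((fun a : Fin r => (Z.map fun ξ => F ξ ^ (a : ℕ) * g ξ).sum) ⬝ᵥ
        ((hk r Z F).adjugate *ᵥ fun a : Fin r => F s ^ (a : ℕ))) *
          ((Z.filter fun ξ => F ξ = F s).card : ℂ) =
        (hk r Z F).det * ((Z.filter fun ξ => F ξ = F s).map g).sum) ∧
    ((fun a : Fin r => F s ^ (a : ℕ)) ⬝ᵥ ((hk r Z F).adjugate *ᵥ fun a : Fin r => F s ^ (a : ℕ))) *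
        ((Z.filter fun ξ => F ξ = F s).card : ℂ) = (hk r Z F).det)

/-- Class averages are holomorphic functions of `(p s, F s)`. -/
def S_PRONY : Prop := ∀ (p : ℂ[X]) (F : ℂ → ℂ), 0 < p.natDegree → Differentiable ℂ F →
  ∃ (T : Set ℂ) (K : ℂ × ℂ → ℂ) (A : ℕ → ℂ × ℂ → ℂ), LF T ∧ DifferentiableOn ℂ K (Tᶜ ×ˢ univ) ∧
    (∀ j, DifferentiableOn ℂ (A j) (Tᶜ ×ˢ univ)) ∧ ∀ s, p.eval s ∉ T →
      K (p.eval s, F s) * ((cls p F s).card : ℂ) = 1 ∧
      ∀ j, A j (p.eval s, F s) * ((cls p F s).card : ℂ) = ((cls p F s).map fun ξ => ξ ^ j).sum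

/-- `k` numbers are determined by their first `k` power sums. -/
def S_NEWT : Prop := ∀ (k : ℕ) (Z Z' : Multiset ℂ), Z.card = k → Z'.card = k →
  (∀ j, 1 ≤ j → j ≤ k → (Z.map fun ξ => ξ ^ j).sum = (Z'.map fun ξ => ξ ^ j).sum) → Z = Z'

/-- A polynomial constant on infinitely many simple fibres of `b` is a polynomial in `b`. -/
def S_DEC : Prop := ∀ (p b : ℂ[X]) (U : Set ℂ), 0 < b.natDegree → U.Infinite →
  (∀ u ∈ U, (b - C u).roots.Nodup ∧ ∀ s s', b.eval s = u → b.eval s' = u → p.eval s = p.eval s') →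
  ∃ φ : ℂ[X], p = φ.comp b

/-- Points of one fibre of a polynomial have comparable size. -/
def S_ROOT : Prop := ∀ p : ℂ[X], 0 < p.natDegree →
  ∃ M : ℝ, 0 ≤ M ∧ ∀ ξ s, p.eval ξ = p.eval s → ‖ξ‖ ≤ M * (1 + ‖s‖)

/-- Finitely many critical values. -/
def S_NOD : Prop := ∀ p : ℂ[X], 0 < p.natDegree → {t | ¬ (p - C t).roots.Nodup}.Finite

/-- An entire function constant on the generic fibres of `p` factors through `p`. -/
def S_AVG : Prop := ∀ (p : ℂ[X]) (F : ℂ → ℂ) (T : Set ℂ), 0 < p.natDegree → Differentiable ℂ F →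
  LF T → (∀ s ξ, p.eval s ∉ T → p.eval ξ = p.eval s → F ξ = F s) →
  ∃ ψ : ℂ → ℂ, Differentiable ℂ ψ ∧ ∀ s, F s = ψ (p.eval s)

/-- The image of `(α, f)` lies in the image of one curve of the family. -/
def S_KEY : Prop := ∀ (E : Type) [NormedAddCommGroup E] [NormedSpace ℂ E] (α f : E → ℂ)
  (Ψ : E × ℂ → E) (P : E → ℂ[X]) (m : ℕ) (z₀ : E), Differentiable ℂ α → Differentiable ℂ f →
  Differentiable ℂ Ψ → (∀ z, Ψ (z, 0) = z) → (∀ z s, α (Ψ (z, s)) = (P z).eval s) →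
  (∀ z, (P z).natDegree ≤ m) → 0 < m → (P z₀).natDegree = m →
  (∀ a, ∃ M : ℝ, ∀ z, α z = a → ‖f z‖ ≤ M) →
  ∀ z, ∃ s, (P z₀).eval s = α z ∧ f (Ψ (z₀, s)) = f z

/-- Riemann's extension theorem across the preimage of a locally finite set. -/
def S_RIEM : Prop := ∀ (E : Type) [NormedAddCommGroup E] [NormedSpace ℂ E] [FiniteDimensional ℂ E]
  (a g : E → ℂ) (T : Set ℂ), Differentiable ℂ a → (¬ ∃ c, ∀ z, a z = c) → LF T →
  DifferentiableOn ℂ g (a ⁻¹' Tᶜ) → (∀ z₀, ∃ M : ℝ, ∀ᶠ z in 𝓝 z₀, a z ∉ T → ‖g z‖ ≤ M) →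
  Dense (a ⁻¹' Tᶜ) ∧ ∃ G : E → ℂ, Differentiable ℂ G ∧ ∀ z, a z ∉ T → G z = g z

/-- The Lüroth step for the curve `(p, F)`. -/
def S_LUR : Prop := ∀ (p : ℂ[X]) (F : ℂ → ℂ), 0 < p.natDegree → Differentiable ℂ F →
  ∃ (T : Set ℂ) (A : ℂ × ℂ → ℂ) (b φ : ℂ[X]), LF T ∧ DifferentiableOn ℂ A (Tᶜ ×ˢ univ) ∧
    p = φ.comp b ∧ (∀ s, p.eval s ∉ T → A (p.eval s, F s) = b.eval s) ∧
    ∀ s ξ, p.eval s ∉ T → b.eval ξ = b.eval s → F ξ = F s

end Pool.Agent.P.MP_cc4673_an.LA
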