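import Pool.Agent.P.MP_cc4673_an.LA.Analysis
import Pool.Agent.P.MP_cc4673_an.Proofs

/-! The Hankel matrix of power sums. -/

namespace Pool.Agent.P.MP_cc4673_an.LA

open Polynomial Filter Topology Set Metric Matrix

theorem hank_one {r : ℕ} {w : ℂ[X]} (h : w.natDegree < r) (x : ℂ) :
    (fun a : Fin r => x ^ (a : ℕ)) ⬝ᵥ (fun a => w.coeff a) = w.eval x := by
  rw [eval_eq_sum_range' h, dotProduct, Finset.sum_range]
  simp only [mul_comm]

theorem hank_dot {r : ℕ} {w : ℂ[X]} (h : w.natDegree < r) (Z : Multiset ℂ) (F g : ℂ → ℂ) :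
    (fun a : Fin r => (Z.map fun ξ => F ξ ^ (a : ℕ) * g ξ).sum) ⬝ᵥ (fun a => w.coeff a) =
      (Z.map fun ξ => w.eval (F ξ) * g ξ).sum := by
  induction Z using Multiset.induction_on with
  | empty => simp [dotProduct]
  | cons x Z ih =>
    simp only [Multiset.map_cons, Multiset.sum_cons]
    rw [← ih, ← hank_one h]
    simp only [dotProduct, add_mul, Finset.sum_add_distrib, Finset.sum_mul, mul_right_comm]

theorem hank_mul {r : ℕ} {w : ℂ[X]} (h : w.natDegree < r) (Z : Multiset ℂ) (F : ℂ → ℂ)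
    (a : Fin r) : (hk r Z F *ᵥ fun b => w.coeff b) a =
      (Z.map fun ξ => w.eval (F ξ) * F ξ ^ (a : ℕ)).sum := by
  rw [← hank_dot h]
  simp only [mulVec, hk, dotProduct, of_apply, pow_add, mul_comm (F _ ^ (a : ℕ))]

theorem hank_ind (Z : Multiset ℂ) (F g : ℂ → ℂ) (v : ℂ) {w : ℂ[X]} (h1 : w.eval v = 1)
    (h0 : ∀ ξ ∈ Z, F ξ ≠ v → w.eval (F ξ) = 0) :
    (Z.map fun ξ => w.eval (F ξ) * g ξ).sum = ((Z.filter fun ξ => F ξ = v).map g).sum := by
  induction Z using Multiset.induction_on with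
  | empty => simp
  | cons x Z ih =>
    rw [Multiset.map_cons, Multiset.sum_cons, ih fun ξ h => h0 ξ (Multiset.mem_cons_of_mem h)]
    by_cases e : F x = v
    · simp [Multiset.filter_cons_of_pos, e, h1]
    · simp [Multiset.filter_cons_of_neg, e, h0 x (Multiset.mem_cons_self _ _) e]

theorem hank_lag {r : ℕ} {Z : Multiset ℂ} {F : ℂ → ℂ} (h : (Z.map F).toFinset.card = r) {s : ℂ}
    (hs : s ∈ Z) : ∃ c : Fin r → ℂ, (hk r Z F *ᵥ c =
      ((Z.filter fun ξ => F ξ = F s).card : ℂ) • fun a : Fin r => F s ^ (a : ℕ)) ∧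
      (fun a : Fin r => F s ^ (a : ℕ)) ⬝ᵥ c = 1 ∧
      ∀ g : ℂ → ℂ, (fun a : Fin r => (Z.map fun ξ => F ξ ^ (a : ℕ) * g ξ).sum) ⬝ᵥ c =
        ((Z.filter fun ξ => F ξ = F s).map g).sum := by
  have m : ∀ ξ ∈ Z, F ξ ∈ (Z.map F).toFinset := fun ξ h =>
    Multiset.mem_toFinset.2 (Multiset.mem_map_of_mem F h)
  have d : (Lagrange.basis (Z.map F).toFinset id (F s)).natDegree < r := by
    rw [Lagrange.natDegree_basis (Set.injOn_id _) (m s hs), h]
    have := Finset.card_pos.2 ⟨_, m s hs⟩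
    omega
  have h1 : (Lagrange.basis (Z.map F).toFinset id (F s)).eval (F s) = 1 :=
    Lagrange.eval_basis_self (v := id) (Set.injOn_id _) (m s hs)
  have h0 : ∀ ξ ∈ Z, F ξ ≠ F s → (Lagrange.basis (Z.map F).toFinset id (F s)).eval (F ξ) = 0 :=
    fun ξ a b => Lagrange.eval_basis_of_ne (v := id) b.symm (m ξ a)
  refine ⟨_, funext fun a => ?_, (hank_one d _).trans h1,
    fun g => (hank_dot d Z F g).trans (hank_ind Z F g _ h1 h0)⟩
  rw [hank_mul d, hank_ind Z F _ _ h1 h0, Multiset.map_congr rfl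
    (g := fun _ => F s ^ (a : ℕ)) fun ξ h => by rw [(Multiset.mem_filter.1 h).2]]
  simp

theorem p_HANK : S_HANK := by
  intro r Z F hr
  refine ⟨⟨fun h => ?_, fun h => ?_⟩, fun h s hs => ?_⟩
  · by_contra e
    have hm := monic_prod_X_sub_C id (Z.map F).toFinset
    have d : (∏ v ∈ (Z.map F).toFinset, (X - C (id v))).natDegree = (Z.map F).toFinset.card :=
      natDegree_finsetProd_X_sub_C_eq_card _ _
    have l := lt_of_le_of_ne hr e
    refine h (exists_mulVec_eq_zero_iff.1 ⟨_, fun z => ?_, funext fun a => (hank_mul (d ▸ l) Z F a).trans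
      (Multiset.sum_eq_zero fun x hx => ?_)⟩)
    · have := congrFun z ⟨_, l⟩
      simp only [← d, hm.coeff_natDegree] at this
      exact one_ne_zero this
    · obtain ⟨ξ, a, rfl⟩ := Multiset.mem_map.1 hx
      rw [eval_prod, Finset.prod_eq_zero (Multiset.mem_toFinset.2 (Multiset.mem_map_of_mem F a))
        (by simp), zero_mul]
  · rw [Ne, ← exists_mulVec_eq_zero_iff]
    rintro ⟨c, c0, e⟩
    refine c0 (eq_zero_of_forall_index_sum_mul_pow_eq_zero
      (f := fun j => ((Finset.equivFinOfCardEq h).symm j : ℂ))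
      (Subtype.val_injective.comp (Equiv.injective _)) fun j => ?_)
    obtain ⟨s, hs, es⟩ := Multiset.mem_map.1
      (Multiset.mem_toFinset.1 ((Finset.equivFinOfCardEq h).symm j).2)
    obtain ⟨c', a, -⟩ := hank_lag h hs
    have sym : (hk r Z F)ᵀ = hk r Z F := by
      ext i j
      simp [hk, add_comm]
    have k : ((Z.filter fun ξ => F ξ = F s).card : ℂ) ≠ 0 := Nat.cast_ne_zero.2
      (Multiset.card_pos_iff_exists_mem.2 ⟨s, by simpa using hs⟩).ne'
    have := dotProduct_mulVec c' (hk r Z F) c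
    rw [e, dotProduct_zero, ← mulVec_transpose, sym, a, smul_dotProduct, smul_eq_mul] at this
    have := (mul_eq_zero.1 this.symm).resolve_left k
    simpa only [dotProduct, es, mul_comm] using this
  · obtain ⟨c, a, b, e⟩ := hank_lag h hs
    have key : ∀ y : Fin r → ℂ, (y ⬝ᵥ ((hk r Z F).adjugate *ᵥ fun a : Fin r => F s ^ (a : ℕ))) *
        ((Z.filter fun ξ => F ξ = F s).card : ℂ) = (hk r Z F).det * (y ⬝ᵥ c) := fun y => by
      rw [mul_comm, ← smul_eq_mul, ← dotProduct_smul, ← mulVec_smul, ← a, mulVec_mulVec,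
        adjugate_mul, smul_mulVec, one_mulVec, dotProduct_smul, smul_eq_mul]
    exact ⟨fun g => by rw [key, e], by rw [key, b, mul_one]⟩

end Pool.Agent.P.MP_cc4673_an.LA

/-! Step PRONY. -/

namespace Pool.Agent.P.MP_cc4673_an.LA

open Polynomial Filter Topology Set Metric Matrix

theorem prony_det {r : ℕ} {M : ℂ → Matrix (Fin r) (Fin r) ℂ}
    (h : ∀ a b, Differentiable ℂ (fun s => M s a b)) :
    Differentiable ℂ (fun s => (M s).det) := by
  simp only [Matrix.det_apply']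
  refine Differentiable.fun_sum fun σ _ => Differentiable.const_mul ?_ _
  exact Differentiable.fun_finsetProd fun i _ => h _ _

theorem prony_adj {r : ℕ} {M : ℂ → Matrix (Fin r) (Fin r) ℂ}
    (h : ∀ a b, Differentiable ℂ (fun s => M s a b)) (a b : Fin r) :
    Differentiable ℂ (fun s => (M s).adjugate a b) := by
  simp only [Matrix.adjugate_apply]
  refine prony_det fun i j => ?_
  by_cases hi : i = b
  · subst hi; simp only [Matrix.updateRow_self]; exact differentiable_const _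
  · simp only [Matrix.updateRow_ne hi]; exact h _ _

theorem prony_sym (hS : S_SYM) {p : ℂ[X]} (hp : 0 < p.natDegree) {g : ℂ → ℂ}
    (hg : Differentiable ℂ g) : Differentiable ℂ fun t => ((p - C t).roots.map g).sum := by
  have h := hS p.natDegree (fun t => p - C t) (fun x => g x.2) (fun t => natDegree_sub_C.le)
    (fun i => by
      simp only [coeff_sub, coeff_C]
      split_ifs <;> fun_prop) (hg.comp differentiable_snd)
  have e : {τ : ℂ | (p - C τ).coeff p.natDegree ≠ 0} = univ := eq_univ_of_forall fun t => by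
    have : p ≠ 0 := by rintro rfl; simp at hp
    simpa [coeff_C, hp.ne'] using this
  rwa [e, differentiableOn_univ] at h

theorem prony_quot {r : ℕ} {M : ℂ → Matrix (Fin r) (Fin r) ℂ}
    (h : ∀ a b, Differentiable ℂ (fun s => M s a b)) {y : ℂ × ℂ → Fin r → ℂ}
    (hy : ∀ a, Differentiable ℂ fun x => y x a) :
    DifferentiableOn ℂ (fun x : ℂ × ℂ => (y x ⬝ᵥ ((M x.1).adjugate *ᵥ fun a : Fin r =>
      x.2 ^ (a : ℕ))) / (M x.1).det) ({t | (M t).det = 0}ᶜ ×ˢ univ) := by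
  have hd : Differentiable ℂ fun x : ℂ × ℂ => (M x.1).det := (prony_det h).comp differentiable_fst
  simp only [div_eq_mul_inv]
  refine DifferentiableOn.fun_mul (Differentiable.differentiableOn ?_)
    (hd.differentiableOn.fun_inv fun x hx => hx.1)
  simp only [dotProduct, mulVec]
  refine Differentiable.fun_sum fun a _ => (hy a).mul (Differentiable.fun_sum fun b _ => ?_)
  exact ((prony_adj h a b).comp differentiable_fst).mul (differentiable_snd.pow _)

theorem p_PRONY (hS : S_SYM) (hH : S_HANK) : S_PRONY := by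
  classical
  intro p F hp hF
  set P : Set ℕ := {n | ∃ t, ((p - C t).roots.map F).toFinset.card = n} with hP
  have hne : P.Nonempty := ⟨_, 0, rfl⟩
  have hbd : BddAbove P := ⟨p.natDegree, by
    rintro n ⟨t, rfl⟩
    refine (Multiset.toFinset_card_le _).trans ?_
    rw [Multiset.card_map, card_roots_sub_C']⟩
  have hle : ∀ t, ((p - C t).roots.map F).toFinset.card ≤ sSup P := fun t => le_csSup hbd ⟨t, rfl⟩
  obtain ⟨t₀, ht₀⟩ := Nat.sSup_mem hne hbd
  generalize sSup P = r at hle ht₀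
  have hM : ∀ a b, Differentiable ℂ fun t => hk r (p - C t).roots F a b := fun a b =>
    prony_sym hS hp (hF.pow _)
  refine ⟨{t | (hk r (p - C t).roots F).det = 0},
    fun x => ((fun a : Fin r => x.2 ^ (a : ℕ)) ⬝ᵥ ((hk r (p - C x.1).roots F).adjugate *ᵥ
      fun a : Fin r => x.2 ^ (a : ℕ))) / (hk r (p - C x.1).roots F).det,
    fun j x => ((fun a : Fin r => ((p - C x.1).roots.map fun ξ => F ξ ^ (a : ℕ) * ξ ^ j).sum) ⬝ᵥ
      ((hk r (p - C x.1).roots F).adjugate *ᵥ fun a : Fin r => x.2 ^ (a : ℕ))) /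
        (hk r (p - C x.1).roots F).det,
    LF.zeros (prony_det hM) ((hH r _ F (hle t₀)).1.2 ht₀),
    prony_quot hM fun a => differentiable_snd.pow _,
    fun j => prony_quot hM fun a => (prony_sym hS hp
      ((hF.pow _).mul (differentiable_id.pow j))).comp differentiable_fst, fun s hs => ?_⟩
  obtain ⟨h1, h2⟩ := hH r _ F (hle (p.eval s))
  obtain ⟨h3, h4⟩ := h2 (h1.1 hs) s ((mem_roots_sub_C hp).2 rfl)
  have hs' : (hk r (p - C (p.eval s)).roots F).det ≠ 0 := hs
  refine ⟨?_, fun j => ?_⟩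
  · rw [div_mul_eq_mul_div, div_eq_one_iff_eq hs']
    exact h4
  · rw [div_mul_eq_mul_div, div_eq_iff hs', mul_comm _ (Matrix.det _)]
    exact h3 fun ξ => ξ ^ j

end Pool.Agent.P.MP_cc4673_an.LA

/-! A multiset is determined by its first power sums. -/

namespace Pool.Agent.P.MP_cc4673_an.LA

open Polynomial Filter Topology Set Metric Matrix

theorem newt_id (Z : Multiset ℂ) (n : ℕ) : n * Z.esymm n = (-1) ^ (n + 1) *
    ∑ a ∈ Finset.HasAntidiagonal.antidiagonal n with a.1 < n,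
      (-1) ^ a.1 * Z.esymm a.1 * (Z.map fun ξ => ξ ^ a.2).sum := by
  have e : (Finset.univ.val.map fun x : Z.ToType => (x : ℂ)) = Z := Z.map_univ_coe
  have := congrArg (MvPolynomial.aeval fun x : Z.ToType => (x : ℂ))
    (MvPolynomial.mul_esymm_eq_sum Z.ToType ℂ n)
  simp only [map_mul, map_natCast, map_pow, map_neg, map_one, map_sum, MvPolynomial.psum,
    MvPolynomial.aeval_esymm_eq_multiset_esymm, MvPolynomial.aeval_X, e] at this
  rw [this]
  congr 1
  refine Finset.sum_congr rfl fun a _ => ?_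
  conv_rhs => rw [← e, Multiset.map_map]
  rw [e]
  rfl

theorem p_NEWT : S_NEWT := by
  intro k Z Z' h h' e
  have a : ∀ n ≤ k, Z.esymm n = Z'.esymm n := fun n => by
    induction n using Nat.strong_induction_on with
    | _ n ih =>
      intro hn
      rcases n.eq_zero_or_pos with rfl | h0
      · simp [Multiset.esymm]
      refine mul_left_cancel₀ (Nat.cast_ne_zero.2 h0.ne') ?_
      rw [newt_id, newt_id]
      congr 1
      refine Finset.sum_congr rfl fun a ha => ?_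
      obtain ⟨a1, a2⟩ := Finset.mem_filter.1 ha
      rw [Finset.HasAntidiagonal.mem_antidiagonal] at a1
      rw [ih _ a2 (by omega), e _ (by omega) (by omega)]
  rw [← roots_multiset_prod_X_sub_C Z, ← roots_multiset_prod_X_sub_C Z',
    Multiset.prod_X_sub_X_eq_sum_esymm, Multiset.prod_X_sub_X_eq_sum_esymm, h, h',
    Finset.sum_congr rfl fun j hj => by rw [a j (Finset.mem_range_succ_iff.1 hj)]]

end Pool.Agent.P.MP_cc4673_an.LA

/-! A polynomial constant on infinitely many simple fibres of `b` is a polynomial in `b`. -/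

namespace Pool.Agent.P.MP_cc4673_an.LA

open Polynomial Filter Topology Set Metric Matrix

theorem dec_aux (b : ℂ[X]) (hb : 0 < b.natDegree) (n : ℕ) : ∀ (p : ℂ[X]) (U : Set ℂ),
    p.natDegree = n → U.Infinite → (∀ u ∈ U, (b - C u).roots.Nodup ∧
      ∀ s s', b.eval s = u → b.eval s' = u → p.eval s = p.eval s') → ∃ φ : ℂ[X], p = φ.comp b := by
  induction n using Nat.strong_induction_on with
  | _ n ih =>
  intro p U hn hU h
  obtain ⟨u, hu⟩ := hU.nonempty
  have hc : 0 < (b - C u).roots.card := by rw [card_roots_sub_C']; exact hb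
  obtain ⟨s₀, hs₀⟩ := Multiset.card_pos_iff_exists_mem.1 hc
  rw [mem_roots_sub_C hb] at hs₀
  by_cases h0 : p - C (p.eval s₀) = 0
  · exact ⟨C (p.eval s₀), by rw [C_comp]; exact sub_eq_zero.1 h0⟩
  have hle : (b - C u).roots ≤ (p - C (p.eval s₀)).roots := by
    rw [Multiset.le_iff_subset (h u hu).1]
    intro ξ hξ
    rw [mem_roots_sub_C hb] at hξ
    rw [mem_roots h0, IsRoot, eval_sub, eval_C, (h u hu).2 ξ s₀ hξ hs₀, sub_self]
  obtain ⟨q, hq⟩ : (b - C u) ∣ p - C (p.eval s₀) :=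
    (IsAlgClosed.splits _).dvd_of_roots_le_roots (sub_C_ne hb u) hle
  have hq0 : q ≠ 0 := by rintro rfl; exact h0 (by rw [hq, mul_zero])
  have hd : q.natDegree < n := by
    have := congrArg natDegree hq
    rw [natDegree_sub_C, natDegree_mul (sub_C_ne hb u) hq0, natDegree_sub_C] at this
    omega
  obtain ⟨φ, hφ⟩ := ih _ hd q (U \ {u}) rfl (hU.sdiff (finite_singleton u)) fun v hv =>
    ⟨(h v hv.1).1, fun s s' e e' => by
      have a := congrArg (eval s) hq
      have a' := congrArg (eval s') hq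
      simp only [eval_sub, eval_mul, eval_C, e, e'] at a a'
      rw [(h v hv.1).2 s s' e e', a'] at a
      exact (mul_left_cancel₀ (sub_ne_zero.2 hv.2) a).symm⟩
  refine ⟨(X - C u) * φ + C (p.eval s₀), ?_⟩
  rw [add_comp, mul_comp, sub_comp, X_comp, C_comp, C_comp, ← hφ, ← hq, sub_add_cancel]

theorem p_DEC : S_DEC := fun p b U hb hU h => dec_aux b hb _ p U rfl hU h

end Pool.Agent.P.MP_cc4673_an.LA

/-! Points of one fibre of a polynomial have comparable size. -/

namespace Pool.Agent.P.MP_cc4673_an.LA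

open Polynomial Filter Topology Set Metric Matrix

theorem root_low (p : ℂ[X]) (n : ℕ) {x : ℂ} {a : ℝ} (h1 : 1 ≤ a) (hx : ‖x‖ ≤ a) :
    ‖∑ i ∈ Finset.range (n + 1), p.coeff i * x ^ i‖ ≤
      (∑ i ∈ Finset.range (n + 1), ‖p.coeff i‖) * a ^ n := by
  rw [Finset.sum_mul]
  refine norm_sum_le_of_le _ fun i hi => ?_
  rw [norm_mul, norm_pow]
  exact mul_le_mul_of_nonneg_left ((pow_le_pow_left₀ (norm_nonneg _) hx i).trans
    (pow_le_pow_right₀ h1 (Nat.lt_succ_iff.1 (Finset.mem_range.1 hi)))) (norm_nonneg _)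

theorem p_ROOT : S_ROOT := by
  intro p hp
  obtain ⟨n, hn⟩ : ∃ n, p.natDegree = n + 1 := ⟨_, (Nat.succ_pred_eq_of_pos hp).symm⟩
  have hc : 0 < ‖p.coeff (n + 1)‖ := by
    rw [← hn, norm_pos_iff]
    exact mt leadingCoeff_eq_zero.1 (ne_zero_of_natDegree_gt hp)
  set c := ‖p.coeff (n + 1)‖ with hc'
  set A := ∑ i ∈ Finset.range (n + 1), ‖p.coeff i‖ with hA
  have hA0 : 0 ≤ A := Finset.sum_nonneg fun _ _ => norm_nonneg _
  have hB : 0 ≤ 2 * A / c := by positivity
  refine ⟨1 + 2 * A / c, by positivity, fun ξ s h => ?_⟩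
  have hs := norm_nonneg s
  have hm := mul_nonneg hB hs
  by_contra hlt
  rw [not_le] at hlt
  have h1 : 1 ≤ ‖ξ‖ := by linarith
  have h2 : ‖s‖ ≤ ‖ξ‖ := by linarith
  rw [eval_eq_sum_range, eval_eq_sum_range, hn, Finset.sum_range_succ _ (n + 1),
    Finset.sum_range_succ _ (n + 1)] at h
  have e : p.coeff (n + 1) * ξ ^ (n + 1) = p.coeff (n + 1) * s ^ (n + 1) +
      (∑ i ∈ Finset.range (n + 1), p.coeff i * s ^ i -
        ∑ i ∈ Finset.range (n + 1), p.coeff i * ξ ^ i) := by linear_combination h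
  have h3 : c * ‖ξ‖ * ‖ξ‖ ^ n ≤ (c * ‖s‖ + 2 * A) * ‖ξ‖ ^ n := by
    have k1 := root_low p n h1 h2
    have k2 := root_low p n h1 le_rfl
    have k3 := (norm_add_le _ _).trans' (congrArg norm e).le
    have k4 := norm_sub_le (∑ i ∈ Finset.range (n + 1), p.coeff i * s ^ i)
      (∑ i ∈ Finset.range (n + 1), p.coeff i * ξ ^ i)
    have k5 : c * ‖s‖ * ‖s‖ ^ n ≤ c * ‖s‖ * ‖ξ‖ ^ n := by gcongr
    rw [norm_mul, norm_mul, norm_pow, norm_pow, pow_succ, pow_succ] at k3
    linarith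
  have h4 := le_of_mul_le_mul_right h3 (by positivity)
  have h5 : c * (2 * A / c) = 2 * A := by field_simp
  have h6 : c * (‖s‖ + 2 * A / c) < c * ‖ξ‖ := mul_lt_mul_of_pos_left (by linarith) hc
  linarith

end Pool.Agent.P.MP_cc4673_an.LA

/-! Finitely many critical values. -/

namespace Pool.Agent.P.MP_cc4673_an.LA

open Polynomial Filter Topology Set Metric Matrix

theorem p_NOD : S_NOD := by
  intro p hp
  classical
  have h0 : derivative p ≠ 0 := fun e => hp.ne' (derivative_eq_zero.1 e)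
  refine ((derivative p).roots.finite_toSet.image p.eval).subset fun t ht => ?_
  rw [mem_ofPred_eq, Multiset.nodup_iff_count_le_one, not_forall] at ht
  obtain ⟨a, ha⟩ := ht
  rw [count_roots, not_le, one_lt_rootMultiplicity_iff_isRoot fun e => by simp [e] at ha] at ha
  exact ⟨a, (mem_roots h0).2 (by simpa using ha.2), by simpa [sub_eq_zero] using ha.1⟩

end Pool.Agent.P.MP_cc4673_an.LA

namespace Pool.Agent.P.MP_cc4673_an.LA

open Polynomial Filter Topology Set Metric Matrix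

theorem p_LUR (hP : S_PRONY) (hG : S_GROW) (hN : S_NEWT) (hD : S_DEC) (hR : S_ROOT)
    (hO : S_NOD) : S_LUR := by
  intro p F hp hF
  obtain ⟨T₀, K, A, hT₀, hK, hA, hKA⟩ := hP p F hp hF
  set T : Set ℂ := T₀ ∪ {t | ¬ (p - C t).roots.Nodup} with hTd
  have hT : LF T := hT₀.union (LF.of_finite (hO p hp))
  have hT' : LF ((fun s => p.eval s) ⁻¹' T) := hT.preimage p.differentiable (eval_nonconst hp)
  have sub : ∀ s, p.eval s ∉ T → p.eval s ∉ T₀ := fun s hs h => hs (Or.inl h)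
  have comp : ∀ {B : ℂ × ℂ → ℂ}, DifferentiableOn ℂ B (T₀ᶜ ×ˢ univ) →
      DifferentiableOn ℂ (fun s => B (p.eval s, F s)) ((fun s => p.eval s) ⁻¹' T)ᶜ := fun hB =>
    hB.comp (p.differentiable.prodMk hF).differentiableOn fun s hs => ⟨sub s hs, trivial⟩
  have self : ∀ s, s ∈ cls p F s := fun s => (mem_cls hp).2 ⟨rfl, rfl⟩
  have pos : ∀ s, (1 : ℝ) ≤ (cls p F s).card := fun s => by
    exact_mod_cast Multiset.card_pos_iff_exists_mem.2 ⟨s, self s⟩
  obtain ⟨q, hq, hq'⟩ := hG _ _ 1 0 hT' (comp hK) fun s hs => by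
    have h := congrArg norm (hKA s (sub s hs)).1
    rw [norm_mul, Complex.norm_natCast, norm_one] at h
    nlinarith [pos s, norm_nonneg (K (p.eval s, F s))]
  obtain ⟨s₀, hs₀⟩ := hT'.infinite_compl.nonempty
  set k := (cls p F s₀).card with hkd
  have hk : ∀ s, p.eval s ∉ T → (cls p F s).card = k := fun s hs => by
    have a := (hKA s (sub s hs)).1
    have b := (hKA s₀ (sub s₀ hs₀)).1
    rw [hq' s hs, eq_C_of_natDegree_le_zero hq, eval_C] at a
    rw [hq' s₀ hs₀, eq_C_of_natDegree_le_zero hq, eval_C] at b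
    exact_mod_cast mul_left_cancel₀ (left_ne_zero_of_mul_eq_one a) (a.trans b.symm)
  obtain ⟨M, M0, hM⟩ := hR p hp
  have hb : ∀ j, ∃ b : ℂ[X], b.natDegree ≤ j ∧
      ∀ s, p.eval s ∉ T → A j (p.eval s, F s) = b.eval s := fun j =>
    hG _ _ (M ^ j) j hT' (comp (hA j)) fun s hs => by
      have h := congrArg norm ((hKA s (sub s hs)).2 j)
      rw [norm_mul, Complex.norm_natCast] at h
      have h2 : ‖((cls p F s).map fun ξ => ξ ^ j).sum‖ ≤
          (cls p F s).card * (M ^ j * (1 + ‖s‖) ^ j) := by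
        refine (norm_multiset_sum_le _).trans ?_
        have := Multiset.sum_le_card_nsmul (((cls p F s).map fun ξ => ξ ^ j).map norm)
          (M ^ j * (1 + ‖s‖) ^ j) fun x hx => by
            simp only [Multiset.map_map, Multiset.mem_map, Function.comp] at hx
            obtain ⟨ξ, hξ, rfl⟩ := hx
            rw [norm_pow, ← mul_pow]
            exact pow_le_pow_left₀ (norm_nonneg _) (hM ξ s ((mem_cls hp).1 hξ).1) j
        simpa using this
      rw [← h, mul_comm] at h2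
      exact le_of_mul_le_mul_left h2 (by linarith [pos s])
  choose b hb1 hb2 using hb
  obtain ⟨j, jk, hj⟩ : ∃ j, j ≤ k ∧ 0 < (b j).natDegree := by
    by_contra hh
    push Not at hh
    have e : ∀ s, p.eval s ∉ T → cls p F s = cls p F s₀ := fun s hs =>
      hN k _ _ (hk s hs) rfl fun j _ jk => by
        rw [← (hKA s (sub s hs)).2 j, ← (hKA s₀ (sub s₀ hs₀)).2 j, hb2 j s hs, hb2 j s₀ hs₀,
          hk s hs, eq_C_of_natDegree_le_zero (hh j jk), eval_C, eval_C]
    exact hT'.infinite_compl ((cls p F s₀).finite_toSet.subset fun s hs => e s hs ▸ self s)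
  have nd : ∀ s, p.eval s ∉ T → (cls p F s).Nodup := fun s hs =>
    Multiset.Nodup.filter _ (not_not.1 fun h => hs (Or.inr h))
  have fib : ∀ s, p.eval s ∉ T → cls p F s = (b j - C ((b j).eval s)).roots := fun s hs => by
    apply Multiset.eq_of_le_of_card_le
    · rw [Multiset.le_iff_subset (nd s hs)]
      intro ξ hξ
      obtain ⟨e1, e2⟩ := (mem_cls hp).1 hξ
      rw [mem_roots_sub_C hj, ← hb2 j s hs, ← hb2 j ξ (e1 ▸ hs), e1, e2]
    · rw [card_roots_sub_C', hk s hs]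
      exact (hb1 j).trans jk
  have mem : ∀ s ξ, p.eval s ∉ T → (b j).eval ξ = (b j).eval s →
      p.eval ξ = p.eval s ∧ F ξ = F s := fun s ξ hs h =>
    (mem_cls hp).1 (fib s hs ▸ (mem_roots_sub_C hj).2 h)
  obtain ⟨φ, hφ⟩ := hD p (b j) ((fun s => (b j).eval s) '' ((fun s => p.eval s) ⁻¹' T)ᶜ) hj
    (fun hf => hT'.infinite_compl (hf.of_finite_fibers _ fun u _ =>
      (b j - C u).roots.finite_toSet.subset fun s hs => (mem_roots_sub_C hj).2 hs.2))
    (by
      rintro _ ⟨s, hs, rfl⟩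
      exact ⟨fib s hs ▸ nd s hs, fun ξ ξ' h h' => (mem s ξ hs h).1.trans (mem s ξ' hs h').1.symm⟩)
  exact ⟨T, A j, b j, φ, hT, (hA j).mono (prod_mono (compl_subset_compl.2 subset_union_left) le_rfl),
    hφ, hb2 j, fun s ξ hs h => (mem s ξ hs h).2⟩

end Pool.Agent.P.MP_cc4673_an.LA

namespace Pool.Agent.P.MP_cc4673_an.LA

open Polynomial Filter Topology Set Metric Matrix

theorem proper_eval {p : ℂ[X]} (hp : 0 < p.natDegree) : IsProperMap fun s => p.eval s :=
  p.isProperMap_eval (natDegree_pos_iff_degree_pos.1 hp)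

/-- The inner factor of a nonconstant polynomial is onto. -/
theorem surj_of_comp {γ φ : ℂ → ℂ} {p : ℂ[X]} (hγ : Differentiable ℂ γ) (hφ : Continuous φ)
    (hp : 0 < p.natDegree) (h : ∀ s, φ (γ s) = p.eval s) : Function.Surjective γ := by
  have pr : IsProperMap γ :=
    isProperMap_of_comp_of_t2 hγ.continuous hφ (by
      rw [show φ ∘ γ = fun s => p.eval s from funext h]; exact proper_eval hp)
  have an : AnalyticOnNhd ℂ γ univ := hγ.differentiableOn.analyticOnNhd isOpen_univ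
  rcases an.is_constant_or_isOpenMap with ⟨c, hc⟩ | ho
  · exact absurd ⟨φ c, fun s => by rw [← h s, hc s]⟩ (eval_nonconst hp)
  · exact range_eq_univ.1
      (IsClopen.eq_univ ⟨pr.isClosedMap.isClosed_range, ho.isOpen_range⟩ (range_nonempty _))

theorem not_inj (hO : S_NOD) {φ : ℂ[X]} (h : 2 ≤ φ.natDegree) :
    ¬ Function.Injective fun s => φ.eval s := fun hi => by
  have hp : 0 < φ.natDegree := by omega
  obtain ⟨t, ht⟩ := (hO φ hp).exists_notMem
  have nd : (φ - C t).roots.Nodup := not_not.1 ht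
  have : 1 < (φ - C t).roots.toFinset.card := by
    rw [Multiset.toFinset_card_of_nodup nd, card_roots_sub_C']; omega
  obtain ⟨a, ha, b, hb, e⟩ := Finset.one_lt_card.1 this
  rw [Multiset.mem_toFinset, mem_roots_sub_C hp] at ha hb
  exact e (hi (ha.trans hb.symm))

variable {E : Type} [NormedAddCommGroup E] [NormedSpace ℂ E] {α : E → ℂ} {Ψ : E × ℂ → E} {m : ℕ}

omit [NormedAddCommGroup E] [NormedSpace ℂ E] in
/-- A curve of the family on which `α` has maximal degree. -/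
theorem exists_max (h0 : ∀ z, Ψ (z, 0) = z)
    (hp : ∀ z, ∃ p : ℂ[X], p.natDegree ≤ m ∧ ∀ s, α (Ψ (z, s)) = p.eval s)
    (hnc : ∃ z s, α (Ψ (z, s)) ≠ α z) :
    ∃ (P : E → ℂ[X]) (z₀ : E), (∀ z s, α (Ψ (z, s)) = (P z).eval s) ∧
      (∀ z, (P z).natDegree ≤ (P z₀).natDegree) ∧ 0 < (P z₀).natDegree := by
  choose P h1 h2 using hp
  obtain ⟨z, s, hz⟩ := hnc
  have bd : BddAbove (range fun z => (P z).natDegree) := ⟨m, by rintro _ ⟨z, rfl⟩; exact h1 z⟩
  obtain ⟨z₀, hz₀⟩ := Nat.sSup_mem ⟨_, mem_range_self z⟩ bd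
  have le : ∀ w, (P w).natDegree ≤ (P z₀).natDegree := fun w =>
    (le_csSup bd (mem_range_self w)).trans hz₀.ge
  refine ⟨P, z₀, h2, le, (Nat.pos_of_ne_zero fun e => hz ?_).trans_le (le z)⟩
  have := h2 z 0
  rw [h0] at this
  rw [this, h2, eq_C_of_natDegree_eq_zero e, eval_C, eval_C]

/-- Stein factorisation of the pair `(α, f)`. -/
theorem stein (hL : S_LUR) (hK : S_KEY) (hR : S_RIEM) (hA : S_AVG) [FiniteDimensional ℂ E]
    (hα : Differentiable ℂ α) (hΨ : Differentiable ℂ Ψ) (h0 : ∀ z, Ψ (z, 0) = z)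
    (hp : ∀ z, ∃ p : ℂ[X], p.natDegree ≤ m ∧ ∀ s, α (Ψ (z, s)) = p.eval s)
    (hnc : ∃ z s, α (Ψ (z, s)) ≠ α z) {f : E → ℂ} (hf : Differentiable ℂ f)
    (hb : ∀ a, ∃ M : ℝ, ∀ z, α z = a → ‖f z‖ ≤ M) :
    ∃ (φ : ℂ[X]) (β : E → ℂ), Differentiable ℂ β ∧ (∀ z, α z = φ.eval (β z)) ∧
      (φ.natDegree ≤ 1 → ∃ ψ : ℂ → ℂ, Differentiable ℂ ψ ∧ ∀ z, f z = ψ (α z)) := by
  obtain ⟨P, z₀, h2, le, pos⟩ := exists_max h0 hp hnc
  have key := hK E α f Ψ P _ z₀ hα hf hΨ h0 h2 le pos rfl hb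
  have hF : Differentiable ℂ fun s => f (Ψ (z₀, s)) :=
    hf.comp (hΨ.comp ((differentiable_const _).prodMk differentiable_id))
  obtain ⟨T, A, b, φ, hT, hAd, hφ, hAb, hfib⟩ := hL (P z₀) _ pos hF
  have ev : ∀ s, (P z₀).eval s = φ.eval (b.eval s) := fun s => by rw [hφ, eval_comp]
  have nc : ¬ ∃ c, ∀ z, α z = c := by
    rintro ⟨c, hc⟩
    obtain ⟨z, s, hz⟩ := hnc
    exact hz ((hc _).trans (hc _).symm)
  have val : ∀ z, α z ∉ T → ∃ s, (P z₀).eval s = α z ∧ A (α z, f z) = b.eval s := fun z hz => by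
    obtain ⟨s, e1, e2⟩ := key z
    exact ⟨s, e1, by rw [← hAb s (e1 ▸ hz), e1, e2]⟩
  obtain ⟨dense, β, hβ, hβ'⟩ := hR E α (fun z => A (α z, f z)) T hα nc hT
    (hAd.comp (hα.prodMk hf).differentiableOn fun z hz => ⟨hz, trivial⟩) fun z₁ => by
      obtain ⟨M, hM⟩ := ((proper_eval pos).isCompact_preimage
        (isCompact_closedBall (α z₁) 1)).exists_bound_of_continuousOn b.continuous.continuousOn
      refine ⟨M, ?_⟩
      filter_upwards [hα.continuous.continuousAt.eventually (closedBall_mem_nhds (α z₁) one_pos)]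
        with z hz hz'
      obtain ⟨s, e1, e2⟩ := val z hz'
      rw [e2]
      exact hM s (by simpa [e1] using hz)
  refine ⟨φ, β, hβ, congrFun (Continuous.ext_on dense hα.continuous
    (φ.continuous.comp hβ.continuous) fun z hz => ?_), fun hd => ?_⟩
  · obtain ⟨s, e1, e2⟩ := val z hz
    rw [hβ' z hz, e2, ← ev, e1]
  · obtain ⟨ψ, hψ, hψ'⟩ := hA (P z₀) _ T pos hF hT fun s ξ hs e => hfib s ξ hs <| by
      rw [ev, ev, eq_X_add_C_of_natDegree_le_one hd] at e
      simp only [eval_add, eval_mul, eval_C, eval_X, add_left_inj] at e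
      refine mul_left_cancel₀ (fun h1 => eval_nonconst pos ⟨φ.coeff 0, fun s => ?_⟩) e
      rw [ev, eq_X_add_C_of_natDegree_le_one hd, h1]
      simp
    refine ⟨ψ, hψ, fun z => ?_⟩
    obtain ⟨s, e1, e2⟩ := key z
    rw [← e1, ← e2, hψ' s]

theorem stein' [FiniteDimensional ℂ E]
    (hα : Differentiable ℂ α) (hΨ : Differentiable ℂ Ψ) (h0 : ∀ z, Ψ (z, 0) = z)
    (hp : ∀ z, ∃ p : ℂ[X], p.natDegree ≤ m ∧ ∀ s, α (Ψ (z, s)) = p.eval s)
    (hnc : ∃ z s, α (Ψ (z, s)) ≠ α z) {f : E → ℂ} (hf : Differentiable ℂ f)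
    (hb : ∀ a, ∃ M : ℝ, ∀ z, α z = a → ‖f z‖ ≤ M) :
    ∃ (φ : ℂ[X]) (β : E → ℂ), Differentiable ℂ β ∧ (∀ z, α z = φ.eval (β z)) ∧
      (φ.natDegree ≤ 1 → ∃ ψ : ℂ → ℂ, Differentiable ℂ ψ ∧ ∀ z, f z = ψ (α z)) :=
  have hS := p_SYM p_PARX
  stein (p_LUR (p_PRONY hS p_HANK) p_GROW p_NEWT p_DEC p_ROOT p_NOD) (p_KEY p_COEF hS p_GROW)
    (p_RIEM p_PARX) (p_AVG hS) hα hΨ h0 hp hnc hf hb

/-- A factorisation `α = φ ∘ β` gives an L-pair `(β, α)` with `β` onto. -/
theorem pair_of_comp (hΨ : Differentiable ℂ Ψ) (h0 : ∀ z, Ψ (z, 0) = z)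
    (hp : ∀ z, ∃ p : ℂ[X], p.natDegree ≤ m ∧ ∀ s, α (Ψ (z, s)) = p.eval s)
    (hnc : ∃ z s, α (Ψ (z, s)) ≠ α z) {φ : ℂ → ℂ} {β : E → ℂ} (hφ : Continuous φ)
    (hβ : Differentiable ℂ β) (h : ∀ z, α z = φ (β z)) :
    Function.Surjective β ∧ ∀ z : ℕ → E,
      (∀ K : Set ℂ, IsCompact K → K ⊆ range β → {k : ℕ | β (z k) ∈ K}.Finite) →
      ∀ K : Set ℂ, IsCompact K → K ⊆ range α → {k : ℕ | α (z k) ∈ K}.Finite := by
  obtain ⟨P, z₀, h2, -, pos⟩ := exists_max h0 hp hnc
  have hγ : Differentiable ℂ fun s => β (Ψ (z₀, s)) :=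
    hβ.comp (hΨ.comp ((differentiable_const _).prodMk differentiable_id))
  have e : ∀ s, φ (β (Ψ (z₀, s))) = (P z₀).eval s := fun s => by rw [← h, h2]
  have su := surj_of_comp hγ hφ pos e
  have sb : Function.Surjective β := fun w => (su w).imp' (fun s => Ψ (z₀, s)) fun _ hs => hs
  refine ⟨sb, fun z hz K hK _ => ?_⟩
  refine (hz _ (((proper_eval pos).isCompact_preimage hK).image hγ.continuous)
    (by rw [sb.range_eq]; exact subset_univ _)).subset fun k hk => ?_
  obtain ⟨s, hs⟩ := su (β (z k))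
  refine ⟨s, ?_, hs⟩
  simp only at hs
  rw [mem_preimage, ← e, hs, ← h]
  exact hk

end Pool.Agent.P.MP_cc4673_an.LA
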